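import Pool.Agent.V11307.RI.Basic

set_option autoImplicit false

/-!
# `n (2n+1) C(2n,n)` divides `∑_{k<n} (10k+3) C(2k,k)² C(3k,k) 8^(n-1-k)` for `n ≥ 2`
-/

namespace Pool.Agent.Results.MP_1cf91b_nt.Integral

open Finset Nat

/-- `∑_{k=0}^{n-1} (10k+3) C(2k,k)² C(3k,k) 8^{n-1-k}` -/
def S (n : ℕ) : ℕ := ∑ k ∈ range n, (10 * k + 3) * (2 * k).choose k ^ 2 * (3 * k).choose k * 8 ^ (n - 1 - k)

/-- `a_n` -/
def a (n : ℕ) : ℚ := (S n : ℚ) / ((n : ℚ) * (2 * n + 1) * ((2 * n).choose n : ℚ))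

/-! ### recurrence -/

theorem S_succ (n : ℕ) : S (n + 1) = 8 * S n + (10 * n + 3) * (2 * n).choose n ^ 2 * (3 * n).choose n := by
  rw [S, sum_range_succ, S, mul_sum]
  congr 1
  · refine sum_congr rfl fun k hk => ?_
    rw [mem_range] at hk
    have : n + 1 - 1 - k = (n - 1 - k) + 1 := by omega
    rw [this, pow_succ]
    ring
  · simp

/-! ### the WZ identity -/

/-- terms of the closed form -/
def g (j k : ℕ) : ℚ :=
  3 * 2 ^ j * ((2 * j + 3 * k + 1)! : ℚ) * ((2 * k)! : ℚ) / (((j + k)! : ℚ) ^ 2 * (k ! : ℚ) ^ 3)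

def f (j k : ℕ) : ℚ :=
  3 * (4 * (j : ℚ) ^ 2 + 12 * j * k + 10 * (k : ℚ) ^ 2 + 2 * j + 3 * k) / (2 * j + 3 * k) *
    2 ^ j * ((2 * j + 3 * k)! : ℚ) * ((2 * k)! : ℚ) / (((j + k)! : ℚ) ^ 2 * (k ! : ℚ) ^ 3)

theorem wz (j k : ℕ) : g j (k + 1) - 8 * g j k = f j (k + 1) - f (j + 1) k := by
  have e1 : ((2 * j + 3 * (k + 1) + 1)! : ℚ) =
      (2 * j + 3 * k + 4) * ((2 * j + 3 * k + 3) * ((2 * j + 3 * k + 2) * ((2 * j + 3 * k + 1)! : ℚ))) := by
    rw [show 2 * j + 3 * (k + 1) + 1 = (2 * j + 3 * k + 1) + 1 + 1 + 1 by ring, Nat.factorial_succ,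
      Nat.factorial_succ, Nat.factorial_succ]
    push_cast; ring
  have e2 : ((2 * j + 3 * (k + 1))! : ℚ) =
      (2 * j + 3 * k + 3) * ((2 * j + 3 * k + 2) * ((2 * j + 3 * k + 1)! : ℚ)) := by
    rw [show 2 * j + 3 * (k + 1) = (2 * j + 3 * k + 1) + 1 + 1 by ring, Nat.factorial_succ,
      Nat.factorial_succ]
    push_cast; ring
  have e3 : ((2 * (j + 1) + 3 * k)! : ℚ) = (2 * j + 3 * k + 2) * ((2 * j + 3 * k + 1)! : ℚ) := by
    rw [show 2 * (j + 1) + 3 * k = (2 * j + 3 * k + 1) + 1 by ring, Nat.factorial_succ]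
    push_cast; ring
  have e4 : ((2 * (k + 1))! : ℚ) = (2 * k + 2) * ((2 * k + 1) * ((2 * k)! : ℚ)) := by
    rw [show 2 * (k + 1) = 2 * k + 1 + 1 by ring, Nat.factorial_succ, Nat.factorial_succ]
    push_cast; ring
  have e5 : ((k + 1)! : ℚ) = (k + 1) * (k ! : ℚ) := by
    rw [Nat.factorial_succ]; push_cast; ring
  have e6 : ((j + (k + 1))! : ℚ) = (j + k + 1) * ((j + k)! : ℚ) := by
    rw [show j + (k + 1) = j + k + 1 by ring, Nat.factorial_succ]; push_cast; ring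
  have e7 : ((j + 1 + k)! : ℚ) = (j + k + 1) * ((j + k)! : ℚ) := by
    rw [show j + 1 + k = j + k + 1 by ring, Nat.factorial_succ]; push_cast; ring
  unfold g f
  rw [e1, e2, e3, e4, e5, e6, e7]
  push_cast
  have n1 : (k ! : ℚ) ≠ 0 := by exact_mod_cast k.factorial_ne_zero
  have n2 : ((j + k)! : ℚ) ≠ 0 := by exact_mod_cast (j + k).factorial_ne_zero
  have n3 : ((j : ℚ) + k + 1) ≠ 0 := by positivity
  have n4 : ((k : ℚ) + 1) ≠ 0 := by positivity
  have n5 : (2 * (j : ℚ) + 3 * (k + 1)) ≠ 0 := by positivity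
  have n6 : (2 * ((j : ℚ) + 1) + 3 * k) ≠ 0 := by positivity
  generalize ((2 * j + 3 * k + 1)! : ℚ) = A
  generalize ((2 * k)! : ℚ) = B
  generalize (k ! : ℚ) = C at *
  generalize ((j + k)! : ℚ) = D at *
  rw [pow_succ]
  field_simp
  ring

theorem f_zero {n : ℕ} (hn : 1 ≤ n) : f 0 n = (10 * n + 3) * ((2 * n).choose n : ℚ) ^ 2 * ((3 * n).choose n : ℚ) := by
  have n1 : (n ! : ℚ) ≠ 0 := by exact_mod_cast n.factorial_ne_zero
  have n2 : ((2 * n)! : ℚ) ≠ 0 := by exact_mod_cast (2 * n).factorial_ne_zero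
  have n3 : (n : ℚ) ≠ 0 := by positivity
  rw [Nat.cast_choose ℚ (show n ≤ 2 * n by omega), Nat.cast_choose ℚ (show n ≤ 3 * n by omega),
    show 2 * n - n = n by omega, show 3 * n - n = 2 * n by omega]
  unfold f
  rw [Nat.mul_zero, Nat.zero_add, Nat.zero_add]
  push_cast
  field_simp
  ring

theorem g_f {n : ℕ} (hn : 1 ≤ n) : g n 0 = f n 0 := by
  have n3 : (n : ℚ) ≠ 0 := by positivity
  unfold g f
  rw [show 2 * n + 3 * 0 + 1 = 2 * n + 3 * 0 + 1 from rfl, Nat.factorial_succ]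
  push_cast
  field_simp
  ring

theorem S_eq (n : ℕ) : (S (n + 1) : ℚ) = ∑ j ∈ range (n + 1), g j (n - j) := by
  refine V11307.RI.closed (m := 8) (f := f) wz (fun n hn => g_f hn) (fun n => (S n : ℚ))
    (fun n => (10 * n + 3) * ((2 * n).choose n : ℚ) ^ 2 * ((3 * n).choose n : ℚ)) ?_ ?_
    (fun n hn => f_zero hn) n
  · simp [S, g]
  · intro n
    rw [S_succ]
    push_cast
    ring

/-- the closed form as a sum of binomial coefficients -/
def b (n : ℕ) : ℕ := ∑ j ∈ range (n + 1), 2 ^ j * (2 * j + 3 * (n - j) + 1).choose (n - j) * (2 * (n - j)).choose (n - j)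

theorem g_eq (j k : ℕ) : g j k = 3 * (2 * (j + k : ℕ) + 1) * ((2 * (j + k)).choose (j + k) : ℚ) *
    (2 ^ j * ((2 * j + 3 * k + 1).choose k : ℚ) * ((2 * k).choose k : ℚ)) := by
  rw [Nat.cast_choose ℚ (show j + k ≤ 2 * (j + k) by omega),
    Nat.cast_choose ℚ (show k ≤ 2 * j + 3 * k + 1 by omega), Nat.cast_choose ℚ (show k ≤ 2 * k by omega),
    show 2 * (j + k) - (j + k) = j + k by omega, show 2 * j + 3 * k + 1 - k = 2 * (j + k) + 1 by omega,
    show 2 * k - k = k by omega, Nat.factorial_succ (2 * (j + k))]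
  have n1 : (k ! : ℚ) ≠ 0 := by exact_mod_cast k.factorial_ne_zero
  have n2 : ((j + k)! : ℚ) ≠ 0 := by exact_mod_cast (j + k).factorial_ne_zero
  have n3 : ((2 * (j + k))! : ℚ) ≠ 0 := by exact_mod_cast (2 * (j + k)).factorial_ne_zero
  have n4 : (2 * ((j + k : ℕ) : ℚ) + 1) ≠ 0 := by positivity
  unfold g
  push_cast at n4 ⊢
  field_simp

theorem S_closed (n : ℕ) : S (n + 1) = 3 * (2 * n + 1) * (2 * n).choose n * b n := by
  have h : (S (n + 1) : ℚ) = ((3 * (2 * n + 1) * (2 * n).choose n * b n : ℕ) : ℚ) := by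
    rw [S_eq, b]
    push_cast
    rw [mul_sum]
    refine sum_congr rfl fun j hj => ?_
    rw [mem_range] at hj
    obtain ⟨k, rfl⟩ : ∃ k, n = j + k := ⟨n - j, by omega⟩
    rw [show j + k - j = k by omega, g_eq]
  exact_mod_cast h

theorem two_dvd_b {n : ℕ} (hn : 1 ≤ n) : 2 ∣ b n := by
  refine dvd_sum fun j hj => ?_
  rcases Nat.eq_zero_or_pos j with rfl | hj0
  · rw [Nat.sub_zero]
    exact Dvd.dvd.mul_left (Nat.two_dvd_centralBinom_of_one_le hn) _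
  · obtain ⟨i, rfl⟩ : ∃ i, j = i + 1 := ⟨j - 1, by omega⟩
    rw [pow_succ, mul_assoc (2 ^ i * 2), mul_comm (2 ^ i) 2, mul_assoc 2]
    exact dvd_mul_right _ _

theorem dvd_b (n : ℕ) : (2 * n + 3) ∣ 3 * b n := by
  -- recurrence for `S` at `N = n + 1`
  have h1 := S_succ (n + 1)
  rw [S_closed (n + 1), S_closed n] at h1
  have hc := V11307.RI.central n
  obtain ⟨w, hw⟩ := V11307.RI.fuss (n + 1)
  have hpos := V11307.RI.choose_pos' (n + 1)
  -- multiply by 2 and cancel the central coefficient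
  have h2 : (2 * n + 3) * (2 * 3 * b (n + 1)) = (2 * n + 3) * (2 * (10 * (n + 1) + 3) * (2 * (n + 1)).choose (n + 1) * w)
      + 8 * (n + 1) * (3 * b n) := by
    have h3 : (2 * (n + 1)).choose (n + 1) * ((2 * n + 3) * (2 * 3 * b (n + 1))) =
        (2 * (n + 1)).choose (n + 1) * ((2 * n + 3) * (2 * (10 * (n + 1) + 3) * (2 * (n + 1)).choose (n + 1) * w)
          + 8 * (n + 1) * (3 * b n)) := by
      rw [hw] at h1
      have h4 : 2 * (2 * n + 1) * (2 * n).choose n * (12 * b n) * 2 =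
        (n + 1) * (2 * (n + 1)).choose (n + 1) * (12 * b n) * 2 := by rw [hc]
      linarith [h1, h4]
    exact Nat.eq_of_mul_eq_mul_left hpos h3
  have h5 : (2 * n + 3) ∣ 8 * (n + 1) * (3 * b n) :=
    (Nat.dvd_add_right (dvd_mul_right _ _)).1 (h2 ▸ dvd_mul_right _ _)
  have h6 : Nat.Coprime (2 * n + 3) (8 * (n + 1)) := by
    have e1 := V11307.RI.coprime_self (n + 1)
    have e2 := V11307.RI.coprime_two (n + 1)
    rw [show 2 * (n + 1) + 1 = 2 * n + 3 by ring] at e1 e2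
    rw [show 8 * (n + 1) = 2 ^ 3 * (n + 1) by ring]
    exact Nat.Coprime.mul_right (Nat.Coprime.pow_right 3 e2) e1
  exact h6.dvd_of_dvd_mul_left h5

/-- **Full answer**: `a_n` is an integer for every `n ≥ 2`. -/
theorem result : ∀ n : ℕ, 2 ≤ n → ∃ z : ℤ, a n = z := by
  intro n hn
  obtain ⟨m, rfl⟩ : ∃ m, n = m + 1 := ⟨n - 1, by omega⟩
  have hdvd : (m + 1) * (2 * (m + 1) + 1) * (2 * (m + 1)).choose (m + 1) ∣ S (m + 1) := by
    obtain ⟨u, hu⟩ := two_dvd_b (n := m) (by omega)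
    have h1 := dvd_b m
    rw [hu, show 3 * (2 * u) = 2 * (3 * u) by ring] at h1
    have e2 := V11307.RI.coprime_two (m + 1)
    rw [show 2 * (m + 1) + 1 = 2 * m + 3 by ring] at e2
    obtain ⟨w, hw⟩ := e2.dvd_of_dvd_mul_left h1
    refine ⟨w, ?_⟩
    have hc := V11307.RI.central m
    rw [S_closed, hu]
    calc 3 * (2 * m + 1) * (2 * m).choose m * (2 * u)
        = (2 * (2 * m + 1) * (2 * m).choose m) * (3 * u) := by ring
      _ = ((m + 1) * (2 * (m + 1)).choose (m + 1)) * ((2 * m + 3) * w) := by rw [hc, hw]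
      _ = _ := by ring
  obtain ⟨z, hz⟩ := hdvd
  refine ⟨z, ?_⟩
  have hpos := V11307.RI.choose_pos' (m + 1)
  have h1 : (((m + 1 : ℕ) : ℚ) * (2 * ((m + 1 : ℕ) : ℚ) + 1) * ((2 * (m + 1)).choose (m + 1) : ℚ)) ≠ 0 := by
    have : ((2 * (m + 1)).choose (m + 1) : ℚ) ≠ 0 := by exact_mod_cast hpos.ne'
    positivity
  rw [a, div_eq_iff h1, hz]
  push_cast
  ring

end Pool.Agent.Results.MP_1cf91b_nt.Integral
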